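import Pool.Agent.Y379.NS.Path

set_option autoImplicit false

open MeasureTheory ProbabilityTheory Set Filter Topology
open scoped Real NNReal

namespace Pool.Agent.Y379.NS

open Pool.Agent.Results.MP_9b0515_pr.HalfSpacesNotOptimal
open Pool.Agent.H946R3

variable {n : ℕ}

/-- the set obtained from the half space by a change on `E` -/
abbrev fl (E : Set (Fin n → ℝ)) : Set (Fin n → ℝ) :=
  Pool.Agent.Results.MP_9b0515_pr.HalfSpacesNotOptimal.flip E

/-- the perturbation of the sign function -/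
noncomputable def pf (E : Set (Fin n → ℝ)) : (Fin n → ℝ) → ℝ := fun x => -2 * (E.indicator (pm (B1 n)) x)

def Inv (E : Set (Fin n → ℝ)) : Prop := MeasurableSet E ∧
  (∀ (i : Fin n) (x : Fin n → ℝ), (x - Pi.single i 1 ∈ E) ↔ x ∈ E) ∧ ∀ x : Fin n → ℝ, (-x ∈ E) ↔ x ∈ E

theorem pf_meas {E : Set (Fin n → ℝ)} (hE : MeasurableSet E) : Measurable (pf E) :=
  ((measurable_pm (measurable_B1 n)).indicator hE).const_mul _

theorem pf_bd (E : Set (Fin n → ℝ)) (x : Fin n → ℝ) : |pf E x| ≤ 2 := by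
  unfold pf
  rw [abs_mul]
  by_cases hx : x ∈ E
  · rw [Set.indicator_of_mem hx]
    have := abs_pm_le (B1 n) x
    rw [show |(-2 : ℝ)| = 2 by norm_num]
    linarith
  · rw [Set.indicator_of_notMem hx]; simp

theorem pf_sum (E : Set (Fin n → ℝ)) : (fun x => pm (B1 n) x + pf E x) = pm (fl E) := by
  ext x
  unfold pf pm
  by_cases hx : x ∈ E
  · rw [Set.indicator_of_mem hx]
    by_cases hb : x ∈ B1 n
    · have : x ∉ fl E := by
        change ¬ (x ∈ B1 n ↔ x ∉ E)
        tauto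
      rw [if_pos hb, if_neg this]; norm_num
    · have : x ∈ fl E := by
        change (x ∈ B1 n ↔ x ∉ E)
        tauto
      rw [if_neg hb, if_pos this]; norm_num
  · rw [Set.indicator_of_notMem hx]
    by_cases hb : x ∈ B1 n
    · have : x ∈ fl E := by
        change (x ∈ B1 n ↔ x ∉ E)
        tauto
      rw [if_pos hb, if_pos this]; norm_num
    · have : x ∉ fl E := by
        change ¬ (x ∈ B1 n ↔ x ∉ E)
        tauto
      rw [if_neg hb, if_neg this]; norm_num

theorem gain (hn : 0 < n) {ρ : ℝ} (h0 : 0 ≤ ρ) (h1 : ρ ≤ 1) {E : Set (Fin n → ℝ)} (hE : Inv E) :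
    noiseStability n ρ (B1 n) + Q n ρ (pf E) (pm (B1 n)) / 2 ≤ noiseStability n ρ (fl E) := by
  have hflip0 : fl (∅ : Set (Fin n → ℝ)) = B1 n := by
    ext x
    simp [fl, Pool.Agent.Results.MP_9b0515_pr.HalfSpacesNotOptimal.flip]
  have hzB : ∫ x, pm (B1 n) x ∂(gam n) = 0 := by
    rw [← hflip0]
    exact integral_pm_flip n hn MeasurableSet.empty (by simp)
  have hzE := integral_pm_flip n hn hE.1 hE.2.2
  rw [stability_eq n hn h0 h1 (measurable_B1 n) hzB,
    stability_eq n hn h0 h1 (measurable_flip hE.1) hzE]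
  have hconv := Q_convex n (ρ := ρ) h0 h1 (pf_meas hE.1) (measurable_pm (measurable_B1 n)) (pf_bd E)
    (abs_pm_le (B1 n))
  rw [pf_sum] at hconv
  linarith

theorem good (hn : 3 ≤ n) {ρ : ℝ} (h0 : 1 / 2 < ρ) (h1 : ρ < 1) :
    ∃ E : Set (Fin n → ℝ), Inv E ∧ 0 < Q n ρ (pf E) (pm (B1 n)) := by
  have hn' : 0 < n := by omega
  have hnr : (0 : ℝ) < n := by exact_mod_cast hn'
  have hρ2 : ρ ^ 2 < 1 := by nlinarith
  set v : ℝ≥0 := Real.toNNReal (n * (1 - ρ ^ 2)) with hvdef
  have hpos : 0 < (n : ℝ) * (1 - ρ ^ 2) := by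
    have : 0 < 1 - ρ ^ 2 := by linarith
    positivity
  have hv : (v : ℝ) = n * (1 - ρ ^ 2) := Real.coe_toNNReal _ hpos.le
  have hv0 : v ≠ 0 := by
    have : (v : ℝ) ≠ 0 := by rw [hv]; exact hpos.ne'
    exact_mod_cast this
  let i0 : Fin n := ⟨0, hn'⟩
  obtain ⟨δ, hδ⟩ := weighted_neg n hn i0 h0 h1 v hv hv0
  obtain ⟨t, ht⟩ := exists_level n (measurable_wt n i0 δ) (measurable_hint n ρ v hv0)
    (wt_nonneg n i0 δ) (wt_le n i0 δ) (abs_hint_le n ρ v) hδ
  set E : Set (Fin n → ℝ) := {x | t < wt n i0 δ x} with hEdef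
  have hE : MeasurableSet E := measurableSet_lt measurable_const (measurable_wt n i0 δ)
  have hE1 : ∀ (i : Fin n) (x : Fin n → ℝ), (x - Pi.single i 1 ∈ E) ↔ x ∈ E := by
    intro i x
    change t < wt n i0 δ (x - Pi.single i 1) ↔ t < wt n i0 δ x
    rw [wt_sub_single]
  have hE2 : ∀ x : Fin n → ℝ, (-x ∈ E) ↔ x ∈ E := by
    intro x
    change t < wt n i0 δ (-x) ↔ t < wt n i0 δ x
    rw [wt_neg]
  refine ⟨E, ⟨hE, hE1, hE2⟩, ?_⟩
  set g : (Fin n → ℝ) → ℝ := pm (B1 n) with hg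
  set f : (Fin n → ℝ) → ℝ := pf E with hf
  have mf : Measurable f := pf_meas hE
  have bf : ∀ x, |f x| ≤ 2 := pf_bd E
  have hgs : g = fun x : Fin n → ℝ => H946R3.sq (∑ i, x i) := by
    ext x
    exact pm_B1 n x
  rw [hgs, Q_sum n hn' hρ2.le mf measurable_sq bf abs_sq_le]
  have e1 : ∀ x, f x * GG n ρ H946R3.sq (∑ i, x i) = -2 * (E.indicator (hint n ρ v) x) := by
    intro x
    have : GG n ρ H946R3.sq (∑ i, x i) = Gt v (ρ * ∑ i, x i) := rfl
    rw [this, hf]
    unfold pf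
    by_cases hx : x ∈ E
    · rw [Set.indicator_of_mem hx, Set.indicator_of_mem hx, ← hg, hgs, hint]
      ring
    · rw [Set.indicator_of_notMem hx, Set.indicator_of_notMem hx]
      ring
  simp_rw [e1]
  rw [integral_const_mul, integral_indicator hE]
  linarith

/-- additivity -/
theorem pf_add {ρ : ℝ} {E E' : Set (Fin n → ℝ)} (hE : MeasurableSet E) (hE' : MeasurableSet E')
    (hd : Disjoint E E') : Q n ρ (pf (E ∪ E')) (pm (B1 n)) = Q n ρ (pf E) (pm (B1 n)) + Q n ρ (pf E') (pm (B1 n)) := by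
  have e : pf (E ∪ E') = fun x => pf E x + pf E' x := by
    ext x
    unfold pf
    rw [Set.indicator_union_of_disjoint hd]
    ring
  rw [e]
  exact Q_add_left n ρ (pf_meas hE) (pf_meas hE') (measurable_pm (measurable_B1 n)) (pf_bd E) (pf_bd E')
    (abs_pm_le (B1 n))

theorem E_inv (i : Fin n) (c : ℝ) : Inv (E i c) :=
  ⟨E_meas i c, fun j x => E_shift i j c x, fun x => E_neg i c x⟩

theorem small (hn : 3 ≤ n) {ρ : ℝ} (h0 : 1 / 2 < ρ) (h1 : ρ < 1) {ε : ℝ} (hε : 0 < ε) :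
    ∃ F : Set (Fin n → ℝ), Inv F ∧ (stdGauss n).real F < ε ∧ 0 < Q n ρ (pf F) (pm (B1 n)) := by
  obtain ⟨D, hD, hpos⟩ := good hn h0 h1
  by_contra hcon
  push Not at hcon
  let i : Fin n := ⟨0, by omega⟩
  have hG := isCompact_Icc.uniformContinuousOn_of_continuous (s := Icc (-2 : ℝ) 2) (G_cont i).continuousOn
  rw [Metric.uniformContinuousOn_iff] at hG
  obtain ⟨η, hη, hG⟩ := hG ε hε
  let φ : ℝ → ℝ := fun c => Q n ρ (pf (D ∩ E i c)) (pm (B1 n))
  have hstep : ∀ c c' : ℝ, c ∈ Icc (-2 : ℝ) 2 → c' ∈ Icc (-2 : ℝ) 2 → c ≤ c' → c' - c < η → φ c ≤ φ c' := by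
    intro c c' hc hc' hcc hη'
    have hsub := @E_anti n i c c' hcc
    let F : Set (Fin n → ℝ) := D ∩ (E i c \ E i c')
    have hF : Inv F := by
      refine ⟨hD.1.inter ((E_meas i c).diff (E_meas i c')), fun j x => ?_, fun x => ?_⟩
      · simp only [F, mem_inter_iff, Set.mem_sdiff]
        rw [hD.2.1 j x, E_shift i j c x, E_shift i j c' x]
      · simp only [F, mem_inter_iff, Set.mem_sdiff]
        rw [hD.2.2 x, E_neg i c x, E_neg i c' x]
    have hFr : (stdGauss n).real F < ε := by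
      have k1 : (stdGauss n).real F ≤ (stdGauss n).real (E i c \ E i c') :=
        measureReal_mono inter_subset_right (by finiteness)
      rw [measureReal_sdiff hsub (E_meas i c')] at k1
      have k2 := hG c hc c' hc' (by rw [Real.dist_eq, abs_sub_comm, abs_of_nonneg (by linarith)]; exact hη')
      rw [Real.dist_eq] at k2
      exact k1.trans_lt ((le_abs_self _).trans_lt k2)
    have hle := hcon F hF hFr
    have hun : D ∩ E i c = (D ∩ E i c') ∪ F := by
      ext x
      have := @hsub x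
      simp only [F, mem_inter_iff, mem_union, Set.mem_sdiff]
      tauto
    have hdisj : Disjoint (D ∩ E i c') F := by
      rw [Set.disjoint_iff]
      rintro x ⟨⟨_, hx⟩, _, _, hx'⟩
      exact hx' hx
    change Q n ρ (pf (D ∩ E i c)) (pm (B1 n)) ≤ Q n ρ (pf (D ∩ E i c')) (pm (B1 n))
    rw [hun, pf_add (hD.1.inter (E_meas i c')) hF.1 hdisj]
    linarith
  obtain ⟨N, hN⟩ := exists_nat_gt (4 / η)
  have hN0 : (0 : ℝ) < N := lt_trans (by positivity) hN
  have hw : 4 / (N : ℝ) < η := by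
    rw [div_lt_iff₀ hN0]
    rw [div_lt_iff₀ hη] at hN
    linarith
  have hmem : ∀ k : ℕ, k ≤ N → (-2 + k * (4 / N) : ℝ) ∈ Icc (-2 : ℝ) 2 := by
    intro k hk
    have hk' : (k : ℝ) ≤ N := by exact_mod_cast hk
    have : (k : ℝ) * (4 / N) ≤ 4 := by
      rw [← mul_div_assoc, div_le_iff₀ hN0]; nlinarith
    constructor
    · have : 0 ≤ (k : ℝ) * (4 / N) := by positivity
      linarith
    · linarith
  have hind : ∀ k : ℕ, k ≤ N → φ (-2) ≤ φ (-2 + k * (4 / N)) := by
    intro k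
    induction k with
    | zero => intro _; simp
    | succ k ih =>
      intro hk
      refine (ih (by omega)).trans (hstep _ _ (hmem k (by omega)) (hmem (k + 1) hk) ?_ ?_)
      · push_cast
        have : 0 ≤ 4 / (N : ℝ) := by positivity
        linarith
      · push_cast
        have : (-2 + ((k : ℝ) + 1) * (4 / N)) - (-2 + k * (4 / N)) = 4 / N := by ring
        rw [this]; exact hw
  have hfin := hind N le_rfl
  have e4 : (-2 + (N : ℝ) * (4 / N)) = 2 := by field_simp; norm_num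
  rw [e4] at hfin
  have a1 : φ (-2) = Q n ρ (pf D) (pm (B1 n)) := by
    have : E i (-2) = univ := by
      ext x
      simp only [E, mem_ofPred_eq, mem_univ, iff_true]
      have := Real.neg_one_le_cos (2 * π * x i)
      linarith
    simp only [φ, this, inter_univ]
  have a2 : φ 2 = 0 := by
    have : E i 2 = ∅ := by
      ext x
      simp only [E, mem_ofPred_eq, mem_empty_iff_false, iff_false, not_lt]
      have := Real.cos_le_one (2 * π * x i)
      linarith
    simp only [φ, this, inter_empty]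
    unfold Q pf
    simp
  rw [a1, a2] at hfin
  linarith

/-- a coordinate reflection -/
def rf (ε : Fin n → ℝ) (x : Fin n → ℝ) : Fin n → ℝ := fun i => ε i * x i

theorem rf_gam (ε : Fin n → ℝ) (hε : ∀ i, ε i = 1 ∨ ε i = -1) : MeasurePreserving (rf ε) (stdGauss n) (stdGauss n) := by
  unfold stdGauss rf
  refine measurePreserving_pi _ _ fun i => ⟨by fun_prop, ?_⟩
  have := gaussianReal_map_const_mul (μ := 0) (v := 1) (ε i)
  rw [this]
  congr 1
  · simp
  · ext
    rcases hε i with h | h <;> simp [h]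

theorem rf_vol (ε : Fin n → ℝ) (hε : ∀ i, ε i = 1 ∨ ε i = -1) :
    MeasurePreserving (rf ε) (volume : Measure (Fin n → ℝ)) volume := by
  have h1 : ∀ i, MeasurePreserving (fun x : ℝ => ε i * x) volume volume := by
    intro i
    rcases hε i with h | h
    · have e : (fun x : ℝ => ε i * x) = id := by ext x; rw [h]; simp
      rw [e]
      exact MeasurePreserving.id (volume : Measure ℝ)
    · have e : (fun x : ℝ => ε i * x) = Neg.neg := by ext x; rw [h]; simp
      rw [e]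
      exact Measure.measurePreserving_neg (volume : Measure ℝ)
  exact volume_preserving_pi (f := fun (i : Fin n) (x : ℝ) => ε i * x) h1

theorem rf_periodic (ε : Fin n → ℝ) (hε : ∀ i, ε i = 1 ∨ ε i = -1) {A : Set (Fin n → ℝ)} (hA : IsPeriodicSet n A) :
    IsPeriodicSet n (rf ε ⁻¹' A) := by
  obtain ⟨mA, sA, nA⟩ := hA
  have hq := (rf_vol ε hε).quasiMeasurePreserving
  have hsub : ∀ i : Fin n, ∀ᵐ y : Fin n → ℝ, (y - Pi.single i 1 ∈ A) ↔ y ∉ A := by
    intro i
    filter_upwards [sA i] with x hx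
    have : (x ∈ (fun y : Fin n → ℝ => y + Pi.single i 1) '' A) = (x ∈ Aᶜ) := hx
    rw [image_add_mem] at this
    rw [this]; rfl
  have hadd : ∀ i : Fin n, ∀ᵐ y : Fin n → ℝ, (y + Pi.single i 1 ∈ A) ↔ y ∉ A := by
    intro i
    have h1 := (measurePreserving_add_right (volume : Measure (Fin n → ℝ)) (Pi.single i 1)).quasiMeasurePreserving.ae
      (hsub i)
    filter_upwards [h1] with y hy
    rw [add_sub_cancel_right] at hy
    tauto
  have hneg : ∀ᵐ y : Fin n → ℝ, (-y ∈ A) ↔ y ∉ A := by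
    filter_upwards [nA] with x hx
    have : (x ∈ (fun y : Fin n → ℝ => -y) '' A) = (x ∈ Aᶜ) := hx
    rw [image_neg_mem] at this
    rw [this]; rfl
  refine ⟨(rf_vol ε hε).measurable mA, fun i => ?_, ?_⟩
  · rcases hε i with h | h
    · filter_upwards [hq.ae (hsub i)] with x hx
      change (x ∈ (fun y : Fin n → ℝ => y + Pi.single i 1) '' (rf ε ⁻¹' A)) = (x ∈ (rf ε ⁻¹' A)ᶜ)
      rw [image_add_mem, eq_iff_iff]
      have e : rf ε (x - Pi.single i 1) = rf ε x - Pi.single i 1 := by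
        ext j
        simp only [rf, Pi.sub_apply]
        by_cases hj : j = i
        · subst hj
          rw [Pi.single_eq_same, h]; ring
        · rw [Pi.single_eq_of_ne hj]; ring
      change (rf ε (x - Pi.single i 1) ∈ A) ↔ ¬ (rf ε x ∈ A)
      rw [e]; exact hx
    · filter_upwards [hq.ae (hadd i)] with x hx
      change (x ∈ (fun y : Fin n → ℝ => y + Pi.single i 1) '' (rf ε ⁻¹' A)) = (x ∈ (rf ε ⁻¹' A)ᶜ)
      rw [image_add_mem, eq_iff_iff]
      have e : rf ε (x - Pi.single i 1) = rf ε x + Pi.single i 1 := by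
        ext j
        simp only [rf, Pi.sub_apply, Pi.add_apply]
        by_cases hj : j = i
        · subst hj
          rw [Pi.single_eq_same, h]; ring
        · rw [Pi.single_eq_of_ne hj]; ring
      change (rf ε (x - Pi.single i 1) ∈ A) ↔ ¬ (rf ε x ∈ A)
      rw [e]; exact hx
  · filter_upwards [hq.ae hneg] with x hx
    change (x ∈ (fun y : Fin n → ℝ => -y) '' (rf ε ⁻¹' A)) = (x ∈ (rf ε ⁻¹' A)ᶜ)
    rw [image_neg_mem, eq_iff_iff]
    have e : rf ε (-x) = -rf ε x := by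
      ext j
      simp [rf]
    change (rf ε (-x) ∈ A) ↔ ¬ (rf ε x ∈ A)
    rw [e]; exact hx

/-- periodic half spaces are not local maximisers -/
theorem not_local (hn : 3 ≤ n) {ρ : ℝ} (h0 : 1 / 2 < ρ) (h1 : ρ < 1) {B : Set (Fin n → ℝ)}
    (hB : IsPeriodicHalfSpace n B) {ε : ℝ} (hε : 0 < ε) :
    ∃ Ω : Set (Fin n → ℝ), IsPeriodicSet n Ω ∧ (stdGauss n).real (symmDiff Ω B) < ε ∧
      noiseStability n ρ B < noiseStability n ρ Ω := by
  have hn' : 0 < n := by omega
  obtain ⟨s, hs, rfl⟩ := hB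
  obtain ⟨F, hF, hFr, hpos⟩ := small hn h0 h1 hε
  have hg := gain hn' (by linarith : (0 : ℝ) ≤ ρ) h1.le hF
  have hper : IsPeriodicSet n (fl F) := isPeriodic_flip n hn' hF.1 hF.2.1 hF.2.2
  refine ⟨rf s ⁻¹' (fl F), rf_periodic s hs hper, ?_, ?_⟩
  · have e : symmDiff (rf s ⁻¹' (fl F)) {x | 0 ≤ Real.sin (π * ∑ i, s i * x i)} = rf s ⁻¹' F := by
      have e1 : {x : Fin n → ℝ | 0 ≤ Real.sin (π * ∑ i, s i * x i)} = rf s ⁻¹' (B1 n) := rfl
      rw [e1]
      ext x
      have hx : (x ∈ symmDiff (rf s ⁻¹' (fl F)) (rf s ⁻¹' (B1 n))) ↔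
          (((rf s x ∈ B1 n ↔ rf s x ∉ F) ∧ rf s x ∉ B1 n) ∨ (rf s x ∈ B1 n ∧ ¬ (rf s x ∈ B1 n ↔ rf s x ∉ F))) := Iff.rfl
      rw [hx]
      change _ ↔ rf s x ∈ F
      tauto
    rw [e, (rf_gam s hs).measureReal_preimage hF.1.nullMeasurableSet]
    exact hFr
  · have e1 : noiseStability n ρ (rf s ⁻¹' (fl F)) = noiseStability n ρ (fl F) :=
      stability_reflect n ρ s hs (measurable_flip hF.1)
    have e2 : noiseStability n ρ {x | 0 ≤ Real.sin (π * ∑ i, s i * x i)} = noiseStability n ρ (B1 n) :=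
      stability_halfSpace n ρ ⟨s, hs, rfl⟩
    rw [e1, e2]
    linarith

end Pool.Agent.Y379.NS
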