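import Pool.Agent.Results.MP_9b0515_pr.HalfSpacesNotOptimal

set_option autoImplicit false

open MeasureTheory ProbabilityTheory Set Filter Topology
open scoped Real NNReal

namespace Pool.Agent.Y379.NS

open Pool.Agent.Results.MP_9b0515_pr.HalfSpacesNotOptimal
open Pool.Agent.H946R3

variable {n : ℕ}

instance : IsProbabilityMeasure (stdGauss n) := by rw [stdGauss_eq]; infer_instance

/-- the second point of the correlated pair -/
noncomputable def tp (ρ : ℝ) (p : (Fin n → ℝ) × (Fin n → ℝ)) : Fin n → ℝ := ρ • p.1 + √(1 - ρ ^ 2) • p.2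

theorem tp_meas (ρ : ℝ) : Measurable (tp (n := n) ρ) := by
  unfold tp
  fun_prop

/-- both marginals are Gaussian -/
theorem marg2 {ρ : ℝ} (h0 : 0 ≤ ρ) (h1 : ρ ≤ 1) {A : Set (Fin n → ℝ)} (hA : MeasurableSet A) :
    ((stdGauss n).prod (stdGauss n)).real (tp ρ ⁻¹' A) = (stdGauss n).real A := by
  have m1 : Measurable (fun _ : Fin n → ℝ => (1 : ℝ)) := measurable_const
  have mA : Measurable (A.indicator (fun _ => (1 : ℝ))) := measurable_const.indicator hA
  have b1 : ∀ x : Fin n → ℝ, |(fun _ : Fin n → ℝ => (1 : ℝ)) x| ≤ 1 := by intro x; simp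
  have bA : ∀ x : Fin n → ℝ, |A.indicator (fun _ => (1 : ℝ)) x| ≤ 1 := by
    intro x
    by_cases h : x ∈ A
    · rw [indicator_of_mem h]; simp
    · rw [indicator_of_notMem h]; simp
  have h := Q_symm n h0 h1 m1 mA b1 bA
  unfold Q at h
  simp only [one_mul, mul_one] at h
  have e1 : ∫ p : (Fin n → ℝ) × (Fin n → ℝ), A.indicator (fun _ => (1 : ℝ)) (ρ • p.1 + √(1 - ρ ^ 2) • p.2)
      ∂((gam n).prod (gam n)) = ((stdGauss n).prod (stdGauss n)).real (tp ρ ⁻¹' A) := by
    have : (fun p : (Fin n → ℝ) × (Fin n → ℝ) => A.indicator (fun _ => (1 : ℝ)) (ρ • p.1 + √(1 - ρ ^ 2) • p.2))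
        = (tp ρ ⁻¹' A).indicator (fun _ => (1 : ℝ)) := by
      ext p
      rfl
    rw [this, integral_indicator ((tp_meas ρ) hA), setIntegral_const, smul_eq_mul, mul_one]
    rfl
  have e2 : ∫ p : (Fin n → ℝ) × (Fin n → ℝ), A.indicator (fun _ => (1 : ℝ)) p.1
      ∂((gam n).prod (gam n)) = (stdGauss n).real A := by
    have : (fun p : (Fin n → ℝ) × (Fin n → ℝ) => A.indicator (fun _ => (1 : ℝ)) p.1)
        = (Prod.fst ⁻¹' A).indicator (fun _ => (1 : ℝ)) := by
      ext p
      rfl
    rw [this, integral_indicator (measurable_fst hA), setIntegral_const, smul_eq_mul, mul_one]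
    have hp : MeasurePreserving (Prod.fst : (Fin n → ℝ) × (Fin n → ℝ) → (Fin n → ℝ))
        ((gam n).prod (gam n)) (gam n) := measurePreserving_fst
    rw [hp.measureReal_preimage hA.nullMeasurableSet]
    rfl
  rw [← e1, h, e2]

theorem marg1 {A : Set (Fin n → ℝ)} (hA : MeasurableSet A) :
    ((stdGauss n).prod (stdGauss n)).real (Prod.fst ⁻¹' A) = (stdGauss n).real A := by
  have hp : MeasurePreserving (Prod.fst : (Fin n → ℝ) × (Fin n → ℝ) → (Fin n → ℝ))
      ((stdGauss n).prod (stdGauss n)) (stdGauss n) := measurePreserving_fst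
  exact hp.measureReal_preimage hA.nullMeasurableSet

theorem lip_one {ρ : ℝ} (h0 : 0 ≤ ρ) (h1 : ρ ≤ 1) {A B : Set (Fin n → ℝ)} (hA : MeasurableSet A)
    (hB : MeasurableSet B) :
    noiseStability n ρ A ≤ noiseStability n ρ B + 2 * (stdGauss n).real (symmDiff A B) := by
  have hD : MeasurableSet (symmDiff A B) := hA.symmDiff hB
  have hsub : {p : (Fin n → ℝ) × (Fin n → ℝ) | p.1 ∈ A ∧ ρ • p.1 + √(1 - ρ ^ 2) • p.2 ∈ A} ⊆
      {p | p.1 ∈ B ∧ ρ • p.1 + √(1 - ρ ^ 2) • p.2 ∈ B} ∪ (Prod.fst ⁻¹' (symmDiff A B) ∪ tp ρ ⁻¹' (symmDiff A B)) := by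
    rintro p ⟨hp1, hp2⟩
    by_cases c1 : p.1 ∈ B
    · by_cases c2 : ρ • p.1 + √(1 - ρ ^ 2) • p.2 ∈ B
      · exact Or.inl ⟨c1, c2⟩
      · exact Or.inr (Or.inr (Or.inl ⟨hp2, c2⟩))
    · exact Or.inr (Or.inl (Or.inl ⟨hp1, c1⟩))
  have k1 := measureReal_mono (μ := (stdGauss n).prod (stdGauss n)) hsub (by finiteness)
  have k2 := measureReal_union_le (μ := (stdGauss n).prod (stdGauss n))
    {p : (Fin n → ℝ) × (Fin n → ℝ) | p.1 ∈ B ∧ ρ • p.1 + √(1 - ρ ^ 2) • p.2 ∈ B}
    (Prod.fst ⁻¹' (symmDiff A B) ∪ tp ρ ⁻¹' (symmDiff A B))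
  have k3 := measureReal_union_le (μ := (stdGauss n).prod (stdGauss n))
    (Prod.fst ⁻¹' (symmDiff A B)) (tp ρ ⁻¹' (symmDiff A B))
  rw [marg1 hD, marg2 h0 h1 hD] at k3
  have e : ∀ C : Set (Fin n → ℝ), noiseStability n ρ C = ((stdGauss n).prod (stdGauss n)).real
      {p | p.1 ∈ C ∧ ρ • p.1 + √(1 - ρ ^ 2) • p.2 ∈ C} := fun C => rfl
  rw [e, e]
  linarith

theorem lip {ρ : ℝ} (h0 : 0 ≤ ρ) (h1 : ρ ≤ 1) {A B : Set (Fin n → ℝ)} (hA : MeasurableSet A)
    (hB : MeasurableSet B) :
    |noiseStability n ρ A - noiseStability n ρ B| ≤ 2 * (stdGauss n).real (symmDiff A B) := by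
  have k1 := lip_one h0 h1 hA hB
  have k2 := lip_one h0 h1 hB hA
  rw [symmDiff_comm] at k2
  rw [abs_sub_le_iff]
  constructor <;> linarith

/-- the invariant sets `cos (2 π x_i) > c` -/
def E (i : Fin n) (c : ℝ) : Set (Fin n → ℝ) := {x | c < Real.cos (2 * π * x i)}

theorem E_meas (i : Fin n) (c : ℝ) : MeasurableSet (E i c) := by
  unfold E
  exact measurableSet_lt measurable_const (by fun_prop)

theorem E_shift (i j : Fin n) (c : ℝ) (x : Fin n → ℝ) : x - Pi.single j 1 ∈ E i c ↔ x ∈ E i c := by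
  unfold E
  simp only [mem_ofPred_eq, Pi.sub_apply]
  by_cases h : i = j
  · subst h
    rw [Pi.single_eq_same]
    have : 2 * π * (x i - 1) = 2 * π * x i - 2 * π := by ring
    rw [this, Real.cos_sub_two_pi]
  · rw [Pi.single_eq_of_ne h, sub_zero]

theorem E_neg (i : Fin n) (c : ℝ) (x : Fin n → ℝ) : -x ∈ E i c ↔ x ∈ E i c := by
  unfold E
  simp only [mem_ofPred_eq, Pi.neg_apply]
  have : 2 * π * (-x i) = -(2 * π * x i) := by ring
  rw [this, Real.cos_neg]

/-- mixture of two sets along `E` -/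
def mix (i : Fin n) (A B : Set (Fin n → ℝ)) (c : ℝ) : Set (Fin n → ℝ) :=
  (A ∩ E i c) ∪ (B ∩ (E i c)ᶜ)

theorem image_add_mem {A : Set (Fin n → ℝ)} {v x : Fin n → ℝ} : x ∈ (fun y => y + v) '' A ↔ x - v ∈ A := by
  constructor
  · rintro ⟨y, hy, rfl⟩
    simpa using hy
  · intro h
    exact ⟨x - v, h, by simp⟩

theorem image_neg_mem {A : Set (Fin n → ℝ)} {x : Fin n → ℝ} : x ∈ (fun y : Fin n → ℝ => -y) '' A ↔ -x ∈ A := by
  constructor
  · rintro ⟨y, hy, rfl⟩
    simpa using hy
  · intro h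
    exact ⟨-x, h, by simp⟩

theorem mix_periodic (i : Fin n) {A B : Set (Fin n → ℝ)} (hA : IsPeriodicSet n A) (hB : IsPeriodicSet n B)
    (c : ℝ) : IsPeriodicSet n (mix i A B c) := by
  obtain ⟨mA, sA, nA⟩ := hA
  obtain ⟨mB, sB, nB⟩ := hB
  refine ⟨(mA.inter (E_meas i c)).union (mB.inter (E_meas i c).compl), fun j => ?_, ?_⟩
  · filter_upwards [sA j, sB j] with x hx hy
    have hx' : (x - Pi.single j 1 ∈ A) ↔ x ∉ A := by
      have : (x ∈ (fun y : Fin n → ℝ => y + Pi.single j 1) '' A) = (x ∈ Aᶜ) := hx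
      rw [image_add_mem] at this
      rw [this]; rfl
    have hy' : (x - Pi.single j 1 ∈ B) ↔ x ∉ B := by
      have : (x ∈ (fun y : Fin n → ℝ => y + Pi.single j 1) '' B) = (x ∈ Bᶜ) := hy
      rw [image_add_mem] at this
      rw [this]; rfl
    have he := E_shift i j c x
    change (x ∈ (fun y : Fin n → ℝ => y + Pi.single j 1) '' (mix i A B c)) = (x ∈ (mix i A B c)ᶜ)
    rw [image_add_mem, eq_iff_iff]
    simp only [mix, mem_union, mem_inter_iff, mem_compl_iff]
    tauto
  · filter_upwards [nA, nB] with x hx hy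
    have hx' : (-x ∈ A) ↔ x ∉ A := by
      have : (x ∈ (fun y : Fin n → ℝ => -y) '' A) = (x ∈ Aᶜ) := hx
      rw [image_neg_mem] at this
      rw [this]; rfl
    have hy' : (-x ∈ B) ↔ x ∉ B := by
      have : (x ∈ (fun y : Fin n → ℝ => -y) '' B) = (x ∈ Bᶜ) := hy
      rw [image_neg_mem] at this
      rw [this]; rfl
    have he := E_neg i c x
    change (x ∈ (fun y : Fin n → ℝ => -y) '' (mix i A B c)) = (x ∈ (mix i A B c)ᶜ)
    rw [image_neg_mem, eq_iff_iff]
    simp only [mix, mem_union, mem_inter_iff, mem_compl_iff]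
    tauto

/-- no level set of the cosine is charged -/
theorem level_null (i : Fin n) (c : ℝ) : ∀ᵐ x ∂(stdGauss n), Real.cos (2 * π * x i) ≠ c := by
  have hpi := Real.pi_pos
  have hC : {s : ℝ | Real.cos (2 * π * s) = c}.Countable := by
    by_cases h : ∃ a, Real.cos (2 * π * a) = c
    · obtain ⟨a, ha⟩ := h
      have hsub : {s : ℝ | Real.cos (2 * π * s) = c} ⊆
          (range fun k : ℤ => (k : ℝ) + a) ∪ (range fun k : ℤ => (k : ℝ) - a) := by
        intro s hs
        have hs' : Real.cos (2 * π * a) = Real.cos (2 * π * s) := by rw [ha]; exact hs.symm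
        obtain ⟨k, hk⟩ := Real.cos_eq_cos_iff.1 hs'
        have h2 : (2 * π) ≠ 0 := by positivity
        rcases hk with hk | hk
        · left
          refine ⟨k, ?_⟩
          have : 2 * π * ((k : ℝ) + a) = 2 * π * s := by rw [hk]; ring
          exact mul_left_cancel₀ h2 this
        · right
          refine ⟨k, ?_⟩
          have : 2 * π * ((k : ℝ) - a) = 2 * π * s := by rw [hk]; ring
          exact mul_left_cancel₀ h2 this
      exact ((countable_range _).union (countable_range _)).mono hsub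
    · have : {s : ℝ | Real.cos (2 * π * s) = c} = ∅ := by
        ext s
        simp only [mem_ofPred_eq, mem_empty_iff_false, iff_false]
        exact fun hs => h ⟨s, hs⟩
      rw [this]
      exact countable_empty
  have h0 : gaussianReal 0 1 {s : ℝ | Real.cos (2 * π * s) = c} = 0 :=
    gaussianReal_absolutelyContinuous 0 one_ne_zero (hC.measure_zero volume)
  have hp : MeasurePreserving (Function.eval i) (stdGauss n) (gaussianReal 0 1) :=
    measurePreserving_eval (fun _ : Fin n => gaussianReal 0 1) i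
  rw [ae_iff]
  have e : {x : Fin n → ℝ | ¬ Real.cos (2 * π * x i) ≠ c} = Function.eval i ⁻¹' {s : ℝ | Real.cos (2 * π * s) = c} := by
    ext x
    simp
  rw [e, hp.measure_preimage hC.measurableSet.nullMeasurableSet]
  exact h0

theorem G_cont (i : Fin n) : Continuous fun c : ℝ => (stdGauss n).real (E i c) := by
  have e : (fun c : ℝ => (stdGauss n).real (E i c)) =
      fun c => ∫ x, (E i c).indicator (fun _ => (1 : ℝ)) x ∂(stdGauss n) := by
    ext c
    rw [integral_indicator (E_meas i c), setIntegral_const, smul_eq_mul, mul_one]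
  rw [e, continuous_iff_continuousAt]
  intro c₀
  apply continuousAt_of_dominated (bound := fun _ => (1 : ℝ))
  · exact Eventually.of_forall fun c => (measurable_const.indicator (E_meas i c)).aestronglyMeasurable
  · refine Eventually.of_forall fun c => Eventually.of_forall fun x => ?_
    by_cases h : x ∈ E i c
    · rw [indicator_of_mem h]; simp
    · rw [indicator_of_notMem h]; simp
  · exact integrable_const _
  · filter_upwards [level_null i c₀] with x hx
    rcases lt_or_gt_of_ne hx with h | h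
    · have : (fun c : ℝ => (E i c).indicator (fun _ => (1 : ℝ)) x) =ᶠ[𝓝 c₀] fun _ => 0 := by
        filter_upwards [eventually_gt_nhds h] with c hc
        apply indicator_of_notMem
        change ¬ (c < Real.cos (2 * π * x i))
        linarith
      exact this.continuousAt
    · have : (fun c : ℝ => (E i c).indicator (fun _ => (1 : ℝ)) x) =ᶠ[𝓝 c₀] fun _ => 1 := by
        filter_upwards [eventually_lt_nhds h] with c hc
        exact indicator_of_mem (show x ∈ E i c from hc) _
      exact this.continuousAt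

theorem E_anti (i : Fin n) {c c' : ℝ} (h : c ≤ c') : E i c' ⊆ E i c := fun _ hx => lt_of_le_of_lt h hx

theorem mix_diff (i : Fin n) (A B : Set (Fin n → ℝ)) {c c' : ℝ} (h : c ≤ c') :
    symmDiff (mix i A B c) (mix i A B c') ⊆ E i c \ E i c' := by
  intro x hx
  have hE := @E_anti n i c c' h x
  have hx' : (x ∈ mix i A B c ∧ x ∉ mix i A B c') ∨ (x ∈ mix i A B c' ∧ x ∉ mix i A B c) := hx
  simp only [mix, mem_union, mem_inter_iff, mem_compl_iff] at hx'
  rw [Set.mem_sdiff]
  tauto

theorem mix_real (i : Fin n) {A B : Set (Fin n → ℝ)} (c c' : ℝ) :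
    (stdGauss n).real (symmDiff (mix i A B c) (mix i A B c')) ≤
      |(stdGauss n).real (E i c) - (stdGauss n).real (E i c')| := by
  rcases le_total c c' with h | h
  · have h1 := measureReal_mono (μ := stdGauss n) (mix_diff i A B h) (by finiteness)
    rw [measureReal_sdiff (E_anti i h) (E_meas i c')] at h1
    exact h1.trans (le_abs_self _)
  · have h1 := measureReal_mono (μ := stdGauss n) (mix_diff i A B h) (by finiteness)
    rw [measureReal_sdiff (E_anti i h) (E_meas i c)] at h1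
    rw [symmDiff_comm, abs_sub_comm]
    exact h1.trans (le_abs_self _)

theorem mix_cont (i : Fin n) {ρ : ℝ} (h0 : 0 ≤ ρ) (h1 : ρ ≤ 1) {A B : Set (Fin n → ℝ)} (hA : MeasurableSet A)
    (hB : MeasurableSet B) : Continuous fun c => noiseStability n ρ (mix i A B c) := by
  have hm : ∀ c, MeasurableSet (mix i A B c) := fun c =>
    (hA.inter (E_meas i c)).union (hB.inter (E_meas i c).compl)
  rw [continuous_iff_continuousAt]
  intro c₀
  rw [ContinuousAt, tendsto_iff_dist_tendsto_zero]
  have hG := ((G_cont i).tendsto c₀)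
  rw [tendsto_iff_dist_tendsto_zero] at hG
  have hG2 := hG.const_mul 2
  rw [mul_zero] at hG2
  refine squeeze_zero (fun _ => dist_nonneg) (fun c => ?_) hG2
  rw [Real.dist_eq, Real.dist_eq]
  exact (lip h0 h1 (hm c) (hm c₀)).trans (mul_le_mul_of_nonneg_left (mix_real i c c₀) (by norm_num))

/-- the values of the noise stability of periodic sets form an interval -/
theorem between (hn : 0 < n) {ρ : ℝ} (h0 : 0 ≤ ρ) (h1 : ρ ≤ 1) {A B : Set (Fin n → ℝ)} (hA : IsPeriodicSet n A)
    (hB : IsPeriodicSet n B) {r : ℝ} (hr1 : noiseStability n ρ A ≤ r) (hr2 : r ≤ noiseStability n ρ B) :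
    ∃ Ω, IsPeriodicSet n Ω ∧ noiseStability n ρ Ω = r := by
  let i : Fin n := ⟨0, hn⟩
  have hcont := mix_cont i h0 h1 hA.1 hB.1
  have e1 : mix i A B (-2) = A := by
    have : E i (-2) = univ := by
      ext x
      simp only [E, mem_ofPred_eq, mem_univ, iff_true]
      have := Real.neg_one_le_cos (2 * π * x i)
      linarith
    rw [mix, this]; simp
  have e2 : mix i A B 2 = B := by
    have : E i 2 = ∅ := by
      ext x
      simp only [E, mem_ofPred_eq, mem_empty_iff_false, iff_false, not_lt]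
      have := Real.cos_le_one (2 * π * x i)
      linarith
    rw [mix, this]; simp
  have hivt := intermediate_value_Icc (by norm_num : (-2 : ℝ) ≤ 2) hcont.continuousOn
  rw [e1, e2] at hivt
  obtain ⟨c, _, hc⟩ := hivt ⟨hr1, hr2⟩
  exact ⟨_, mix_periodic i hA hB c, hc⟩

end Pool.Agent.Y379.NS
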